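import Pool.Agent.W842.BV.Local
import Pool.Agent.W842.BV.Final

set_option autoImplicit false

/-!
# Brown-Erdős-Sós conjecture: the shadow of a dense counterexample is incompressible

Definitions (`Pool/Agent/W842/BV/Stms.lean`, `Pool/Agent/W842/BV/Incomp.lean`), for a finite set
`H` of subsets of `Fin n`:

* `Sparse s H`: the members of `H` have three elements and every set of `s + 3` vertices contains
  fewer than `s` of them (the condition of the problem for `k = s + 3`);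
* `nbr H v`: the neighbourhood of `v` in the shadow, the vertices `w ≠ v` that lie in a member of
  `H` together with `v`;
* `adjM H b w`: the adjacency matrix of the shadow, `1` if `w ∈ nbr H b` and `0` otherwise.
-/

namespace Pool.Agent.Results.MP_c82047_co.IncompressibleShadow

open Finset Pool.Agent.W842.BV

theorem result :
    -- (A) every set of rows of the shadow is far from all matrices with few different rows
    (∀ (n s M : ℕ) (H : Finset (Finset (Fin n))), s + 3 ≤ n → Sparse s H →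
      ∀ (B : Finset (Fin n)) (f : Fin n → Fin M) (g : Fin M → Fin n → ℝ),
        ∑ b ∈ B, ((nbr H b).card : ℝ) ≤
          2 * s * (∑ b ∈ B, ∑ w, |adjM H b w - g (f b) w|) + ((s : ℝ) ^ 2 + s) * B.card + M * n) ∧
    -- (B) five or more neighbourhoods of linear size have robustly a VC-dimension of maximal order
    (∀ (s : ℕ) (ε : ℝ), 0 < ε → ∃ δ : ℝ, 0 < δ ∧ ∃ c : ℝ, 0 < c ∧ ∃ N : ℕ, ∀ n : ℕ, N ≤ n →
      ∀ H : Finset (Finset (Fin n)), Sparse s H → ∀ B : Finset (Fin n), 5 ≤ B.card →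
        (∀ b ∈ B, ε * n ≤ (nbr H b).card) → ∀ M : Fin n → Finset (Fin n),
        ((B.image M).vcDim : ℝ) ≤ c * Real.log B.card →
        δ * n * B.card < ((∑ b ∈ B, (symmDiff (nbr H b) (M b)).card : ℕ) : ℝ)) ∧
    -- (C) the conjecture holds if the shadow is close to a set system of VC-dimension `c log n` or
    -- to a matrix of rank `c log n`
    (∀ (s : ℕ) (ε : ℝ), 0 < ε → ∃ δ : ℝ, 0 < δ ∧ ∃ c : ℝ, 0 < c ∧ ∃ N : ℕ, ∀ n : ℕ, N ≤ n →
      ∀ H : Finset (Finset (Fin n)), Sparse s H →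
        ((∃ M : Fin n → Finset (Fin n), ((univ.image M).vcDim : ℝ) ≤ c * Real.log n ∧
            ((∑ b, (symmDiff (nbr H b) (M b)).card : ℕ) : ℝ) ≤ δ * (n : ℝ) ^ 2) ∨
          (∃ G : Matrix (Fin n) (Fin n) ℝ, (G.rank : ℝ) ≤ c * Real.log n ∧
            ∑ b, ∑ w, (adjM H b w - G b w) ^ 2 ≤ δ * (n : ℝ) ^ 2)) →
        (H.card : ℝ) ≤ ε * (n : ℝ) ^ 2) ∧
    -- (D) power saving for VC-dimension at most `d`
    (∀ (n s d : ℕ) (H : Finset (Finset (Fin n))), s + 3 ≤ n → 2 ≤ d → Sparse s H →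
      (univ.image (nbr H)).vcDim ≤ d →
      (H.card : ℝ) ≤ 40 * (s : ℝ) ^ 3 * (n : ℝ) ^ (2 - 1 / (d : ℝ))) ∧
    -- (E) it is sharp for `d = 2` and `k = 6, 7, 8`
    (∃ c : ℝ, 0 < c ∧ ∃ n₀ : ℕ, ∀ n : ℕ, n₀ ≤ n → ∃ H : Finset (Finset (Fin n)),
      Sparse 3 H ∧ Sparse 4 H ∧ Sparse 5 H ∧ (univ.image (nbr H)).vcDim ≤ 2 ∧
      c * (n : ℝ) ^ (3 / 2 : ℝ) ≤ H.card) ∧
    -- (F) and up to a factor two in the deficit of the exponent for all large `d`
    (∀ D : ℕ, 1 ≤ D → ∃ c : ℝ, 0 < c ∧ ∃ n₀ : ℕ, ∀ n : ℕ, n₀ ≤ n →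
      ∃ H : Finset (Finset (Fin n)),
        Sparse 3 H ∧ Sparse 4 H ∧ Sparse 5 H ∧ (univ.image (nbr H)).vcDim ≤ D + 1 ∧
        c * (n : ℝ) ^ (2 - 2 / (D : ℝ)) ≤ H.card) := by
  refine ⟨?_, ?_, ?_, ?_, ?_, ?_⟩
  · intro n s M H hn hS B f g
    exact incompressible_on pF pE pC pD (sparse_pos hn hS) hn hS B f g
  · intro s ε hε
    rcases Nat.eq_zero_or_pos s with h0 | hs
    · subst h0
      refine ⟨1, one_pos, 1, one_pos, 3, ?_⟩
      intro n hn H hS
      have := sparse_pos (s := 0) (by omega) hS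
      omega
    · exact robust_local pF pE pC pD pH s hs ε hε
  · intro s ε hε
    rcases Nat.eq_zero_or_pos s with h0 | hs
    · subst h0
      refine ⟨1, one_pos, 1, one_pos, 3, ?_⟩
      intro n hn H hS
      have := sparse_pos (s := 0) (by omega) hS
      omega
    · obtain ⟨δ₁, hδ₁, c₁, hc₁, N₁, h₁⟩ := robust pF pE pC pD pH pL s hs ε hε
      obtain ⟨δ₂, hδ₂, c₂, hc₂, N₂, h₂⟩ := rank_robust pF pE pC pD pH pL pRK s hs ε hε
      refine ⟨min δ₁ δ₂, lt_min hδ₁ hδ₂, min c₁ c₂, lt_min hc₁ hc₂, max (max N₁ N₂) 1, ?_⟩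
      intro n hn H hS hor
      have hn1 : 1 ≤ n := le_trans (le_max_right _ _) hn
      have hnN₁ : N₁ ≤ n := le_trans (le_trans (le_max_left _ _) (le_max_left _ _)) hn
      have hnN₂ : N₂ ≤ n := le_trans (le_trans (le_max_right _ _) (le_max_left _ _)) hn
      have hlog : 0 ≤ Real.log n := Real.log_nonneg (by exact_mod_cast hn1)
      have hnn : (0 : ℝ) ≤ (n : ℝ) ^ 2 := by positivity
      rcases hor with ⟨M, hM1, hM2⟩ | ⟨G, hG1, hG2⟩
      · exact h₁ n hnN₁ H hS M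
          (hM1.trans (mul_le_mul_of_nonneg_right (min_le_left _ _) hlog))
          (hM2.trans (mul_le_mul_of_nonneg_right (min_le_left _ _) hnn))
      · exact h₂ n hnN₂ H hS G
          (hG1.trans (mul_le_mul_of_nonneg_right (min_le_right _ _) hlog))
          (hG2.trans (mul_le_mul_of_nonneg_right (min_le_right _ _) hnn))
  · intro n s d H hn hd hS hv
    exact upper pF pE pC pD pH pL pY (sparse_pos hn hS) hn hS hd hv
  · obtain ⟨c, hc, n₀, h⟩ := Pool.Agent.W397.BV.t_PON Pool.Agent.W571.BVPOL.t_POL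
      Pool.Agent.W515.BVSIX.t_SIX Pool.Agent.W975.BV.t_TRANS
    refine ⟨c, hc, n₀, fun n hn => ?_⟩
    obtain ⟨H, h1, h2, h3⟩ := h n hn
    exact ⟨H, h1, ups (by norm_num) h1, ups (by norm_num) (ups (by norm_num) h1), h2, h3⟩
  · intro D hD
    obtain ⟨c, hc, n₀, h⟩ := lower2 Pool.Agent.W523.BV.t_DBL Pool.Agent.W523.BV.t_LIN
      Pool.Agent.W515.BVSIX.t_SIX pVCM Pool.Agent.W101.BV.t_PIG Pool.Agent.W975.BV.t_TRANS
      Pool.Agent.W417.BV.t_ASY D hD
    refine ⟨c, hc, n₀, fun n hn => ?_⟩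
    obtain ⟨H, h1, h2, h3⟩ := h n hn
    exact ⟨H, h1, ups (by norm_num) h1, ups (by norm_num) (ups (by norm_num) h1), h2, h3⟩

end Pool.Agent.Results.MP_c82047_co.IncompressibleShadow
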